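import Mathlib

/-!
# Counting the configurations which miss a pattern in all of several disjoint blocks
-/

set_option autoImplicit false

namespace Pool.Agent.H95.TL

open Finset

variable {X : Type} [Fintype X] [DecidableEq X]

/-- the configurations which differ from `π` in each of the first `K` blocks -/
def bad (B : ℕ → Finset X) (π : X → Bool) (K : ℕ) : Finset (X → Bool) :=
  univ.filter fun o => ∀ k < K, ∃ x ∈ B k, o x ≠ π x

theorem bad_step (B : ℕ → Finset X) (π : X → Bool) (q K : ℕ) (hq : (B K).card ≤ q)
    (hB : ∀ k < K, Disjoint (B k) (B K)) :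
    (bad B π K).card ≤ 2 ^ q * ((bad B π K).card - (bad B π (K + 1)).card) := by
  classical
  let ov : (X → Bool) → (X → Bool) := fun o x => if x ∈ B K then π x else o x
  have hsub : bad B π (K + 1) ⊆ bad B π K := by
    intro o ho
    simp only [bad, mem_filter, mem_univ, true_and] at ho ⊢
    exact fun k hk => ho k (by omega)
  rw [← card_sdiff_of_subset hsub]
  refine card_le_mul_card_image_of_maps_to (f := ov) ?_ (2 ^ q) ?_
  · intro o ho
    simp only [bad, mem_filter, mem_univ, true_and, mem_sdiff] at ho ⊢
    refine ⟨?_, ?_⟩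
    · intro k hk
      obtain ⟨x, hx, hne⟩ := ho k hk
      refine ⟨x, hx, ?_⟩
      have : x ∉ B K := fun h => Finset.disjoint_left.mp (hB k hk) hx h
      simp only [ov, if_neg this]
      exact hne
    · intro h
      obtain ⟨x, hx, hne⟩ := h K (by omega)
      apply hne
      simp only [ov, if_pos hx]
  · intro p _
    refine le_trans (card_le_card_of_injOn (t := (univ : Finset (B K → Bool)))
      (fun o x => o x.1) (fun _ _ => mem_univ _) ?_) ?_
    · intro o ho o' ho' hoo
      simp only [coe_filter, Set.mem_ofPred_eq] at ho ho'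
      funext x
      by_cases hx : x ∈ B K
      · exact congrFun hoo ⟨x, hx⟩
      · have h1 := congrFun (ho.2.trans ho'.2.symm) x
        simp only [ov, if_neg hx] at h1
        exact h1
    · rw [card_univ, Fintype.card_fun, Fintype.card_bool, Fintype.card_coe]
      exact Nat.pow_le_pow_right (by norm_num) hq

theorem bad_card (B : ℕ → Finset X) (π : X → Bool) (q : ℕ) : ∀ K : ℕ,
    (∀ k < K, (B k).card ≤ q) → (∀ j < K, ∀ k < K, j ≠ k → Disjoint (B j) (B k)) →
    ((bad B π K).card : ℝ) ≤ (1 - 1 / 2 ^ q) ^ K * 2 ^ Fintype.card X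
  | 0, _, _ => by
    have : (bad B π 0).card ≤ 2 ^ Fintype.card X := by
      refine (card_le_univ _).trans ?_
      rw [Fintype.card_fun, Fintype.card_bool]
    rw [pow_zero, one_mul]
    exact_mod_cast this
  | K + 1, hq, hB => by
    have ih := bad_card B π q K (fun k hk => hq k (by omega))
      (fun j hj k hk h => hB j (by omega) k (by omega) h)
    have h1 := bad_step B π q K (hq K (by omega)) (fun k hk => hB k (by omega) K (by omega) (by omega))
    have hsub : bad B π (K + 1) ⊆ bad B π K := by
      intro o ho
      simp only [bad, mem_filter, mem_univ, true_and] at ho ⊢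
      exact fun k hk => ho k (by omega)
    have h2 := card_le_card hsub
    have h3 : ((bad B π K).card : ℝ) ≤ 2 ^ q * (((bad B π K).card : ℝ) - (bad B π (K + 1)).card) := by
      rw [← Nat.cast_sub h2]
      exact_mod_cast h1
    have hp : (0 : ℝ) < 2 ^ q := by positivity
    have h4 : ((bad B π (K + 1)).card : ℝ) ≤ (1 - 1 / 2 ^ q) * (bad B π K).card := by
      have h5 : ((bad B π K).card : ℝ) / 2 ^ q ≤ (bad B π K).card - (bad B π (K + 1)).card := by
        rw [div_le_iff₀ hp]
        linarith
      have h6 : (1 - 1 / (2 : ℝ) ^ q) * (bad B π K).card =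
          (bad B π K).card - (bad B π K).card / 2 ^ q := by ring
      rw [h6]
      linarith
    have h7 : (0 : ℝ) ≤ 1 - 1 / 2 ^ q := by
      rw [sub_nonneg, div_le_one hp]
      exact one_le_pow₀ (by norm_num)
    calc ((bad B π (K + 1)).card : ℝ) ≤ (1 - 1 / 2 ^ q) * (bad B π K).card := h4
      _ ≤ (1 - 1 / 2 ^ q) * ((1 - 1 / 2 ^ q) ^ K * 2 ^ Fintype.card X) :=
          mul_le_mul_of_nonneg_left ih h7
      _ = _ := by ring

end Pool.Agent.H95.TL
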