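import Mathlib
import Pool.Graph.R_pool_sql_team_seeded_63374d34.N568.Dg.Defs

/-!
# Definitions: doubled copies of complete digraphs, strong linkedness, tournaments
-/

set_option autoImplicit false

namespace Pool.Agent.H95.TL

open Set Pool.Agent.N568.Dg

/-- A copy in the digraph `D` of the digraph with the vertices `x i`, `y i` and the arcs `x i → y i` and
`y i → x j` for `i ≠ j` (`i, j ∈ I`). This digraph has no two opposite arcs. -/
structure Doubled (D : DirectedGraph) (I : Type) where
  /-- the first vertices -/
  x : I → D.V
  /-- the second vertices -/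
  y : I → D.V
  /-- the arcs `x i → y i` -/
  e : I → D.E
  /-- the arcs `y i → x j` -/
  g : I → I → D.E
  x_inj : Function.Injective x
  y_inj : Function.Injective y
  x_ne_y : ∀ i j, x i ≠ y j
  src_e : ∀ i, D.src (e i) = x i
  tgt_e : ∀ i, D.tgt (e i) = y i
  src_g : ∀ i j, i ≠ j → D.src (g i j) = y i
  tgt_g : ∀ i j, i ≠ j → D.tgt (g i j) = x j

/-- In every spatial embedding of `D` there are `n` pairwise vertex-disjoint consistently oriented
cycles whose images form a nonsplit link; one of them forms a nonsplit two-component link with each of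
the others, and each of the others has at most six vertices. -/
def StarLinked (n : ℕ) (D : DirectedGraph) : Prop :=
  ∀ f : SpatialEmbedding D, ∃ (C : Fin n → OrientedCycle D) (i₀ : Fin n),
    (∀ i j, i ≠ j → VertexDisjoint (C i) (C j)) ∧
    (Nonsplit fun i => (C i).image f) ∧
    ∀ i, i ≠ i₀ → Nonsplit ![(C i₀).image f, (C i).image f] ∧ (C i).k ≤ 6

/-- The digraph is a tournament: any two distinct vertices are joined by exactly one arc. -/
def IsTournament (D : DirectedGraph) : Prop :=
  ∀ a b : D.V, a ≠ b → ∃! e : D.E, (D.src e = a ∧ D.tgt e = b) ∨ (D.src e = b ∧ D.tgt e = a)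

/-- A labelled tournament on the vertices `0, …, N - 1`: a choice of the direction for each pair
`a < b`; `true` means the arc from `a` to `b`. -/
abbrev Lab (N : ℕ) : Type := {p : Fin N × Fin N // p.1 < p.2} → Bool

/-- the arc `a → b` is present in the labelled tournament -/
def Dir {N : ℕ} (o : Lab N) (a b : Fin N) : Prop :=
  (∃ h : a < b, o ⟨(a, b), h⟩ = true) ∨ ∃ h : b < a, o ⟨(b, a), h⟩ = false

/-- the digraph of a labelled tournament -/
def labTour {N : ℕ} (o : Lab N) : DirectedGraph where
  V := Fin N
  E := {p : Fin N × Fin N // Dir o p.1 p.2}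
  finite_V := inferInstance
  finite_E := inferInstance
  src e := e.1.1
  tgt e := e.1.2
  src_ne_tgt e h := by
    rcases e.2 with ⟨h', _⟩ | ⟨h', _⟩
    · exact absurd h h'.ne
    · exact absurd h h'.ne'

end Pool.Agent.H95.TL
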