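import Mathlib
import Pool.Graph.R_pool_sql_team_seeded_63374d34.N568.Dg.Main
import Pool.Graph.R_pool_sql_team_seeded_63374d34.N568.Dg.Embed
import Pool.Agent.H95.TL.Defs

/-!
# Doubled copies of complete symmetric digraphs in a digraph
-/

set_option autoImplicit false
set_option linter.unusedVariables false
set_option linter.unusedSectionVars false

namespace Pool.Agent.H95.TL

open Set Pool.Agent.N568.Dg Pool.Agent.Helper683.Lk Pool.Agent.N568.Lk

section
variable {D : DirectedGraph} {I : Type} (E : Doubled D I)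

/-- the cycle of the digraph through the vertices of a list -/
def cy (l : List I) (hn : l.Nodup) (h : 2 ≤ l.length) : OrientedCycle D where
  k := 2 * l.length
  k_pos := by omega
  x m := if m % 2 = 0 then E.x (cyc l (pos2 h) (m / 2)) else E.y (cyc l (pos2 h) (m / 2))
  e m := if m % 2 = 0 then E.e (cyc l (pos2 h) (m / 2)) else
    E.g (cyc l (pos2 h) (m / 2)) (cyc l (pos2 h) (m / 2 + 1))
  closed := by
    have h1 : 2 * l.length % 2 = 0 := by omega
    have h2 : 2 * l.length / 2 = l.length := by omega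
    rw [if_pos h1, h2, cyc_closed]
    simp
  src_e m hm := by
    split_ifs with h'
    · exact E.src_e _
    · exact E.src_g _ _ (cyc_ne hn h _)
  tgt_e m hm := by
    by_cases h' : m % 2 = 0
    · have h1 : ¬ (m + 1) % 2 = 0 := by omega
      have h2 : (m + 1) / 2 = m / 2 := by omega
      rw [if_pos h', if_neg h1, h2]
      exact E.tgt_e _
    · have h1 : (m + 1) % 2 = 0 := by omega
      have h2 : (m + 1) / 2 = m / 2 + 1 := by omega
      rw [if_neg h', if_pos h1, h2]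
      exact E.tgt_g _ _ (cyc_ne hn h _)
  distinct i hi j hj h' := by
    have hi' : i / 2 < l.length := by omega
    have hj' : j / 2 < l.length := by omega
    by_cases h1 : i % 2 = 0 <;> by_cases h2 : j % 2 = 0
    · rw [if_pos h1, if_pos h2] at h'
      have := cyc_inj hn (pos2 h) hi' hj' (E.x_inj h')
      omega
    · rw [if_pos h1, if_neg h2] at h'
      exact absurd h' (E.x_ne_y _ _)
    · rw [if_neg h1, if_pos h2] at h'
      exact absurd h'.symm (E.x_ne_y _ _)
    · rw [if_neg h1, if_neg h2] at h'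
      have := cyc_inj hn (pos2 h) hi' hj' (E.y_inj h')
      omega

theorem cy_disjoint {l l' : List I} (hn : l.Nodup) (h : 2 ≤ l.length) (hn' : l'.Nodup)
    (h' : 2 ≤ l'.length) (hd : ∀ a ∈ l, a ∉ l') : VertexDisjoint (cy E l hn h) (cy E l' hn' h') := by
  intro i hi j hj he
  have hi' : cyc l (pos2 h) (i / 2) ∈ l := List.getElem_mem _
  have hj' : cyc l' (pos2 h') (j / 2) ∈ l' := List.getElem_mem _
  have hne : cyc l (pos2 h) (i / 2) ≠ cyc l' (pos2 h') (j / 2) := by
    intro hh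
    rw [hh] at hi'
    exact hd _ hi' hj'
  change (if i % 2 = 0 then E.x (cyc l (pos2 h) (i / 2)) else E.y (cyc l (pos2 h) (i / 2))) =
    (if j % 2 = 0 then E.x (cyc l' (pos2 h') (j / 2)) else E.y (cyc l' (pos2 h') (j / 2))) at he
  by_cases h1 : i % 2 = 0 <;> by_cases h2 : j % 2 = 0
  · rw [if_pos h1, if_pos h2] at he
    exact hne (E.x_inj he)
  · rw [if_pos h1, if_neg h2] at he
    exact E.x_ne_y _ _ he
  · rw [if_neg h1, if_pos h2] at he
    exact E.x_ne_y _ _ he.symm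
  · rw [if_neg h1, if_neg h2] at he
    exact hne (E.y_inj he)

theorem sum_even {A : Type*} [AddCommMonoid A] (F : ℕ → A) : ∀ L : ℕ,
    ∑ i ∈ Finset.range (2 * L), F i = ∑ i ∈ Finset.range L, (F (2 * i) + F (2 * i + 1))
  | 0 => by simp
  | L + 1 => by
    rw [show 2 * (L + 1) = 2 * L + 1 + 1 by ring, Finset.sum_range_succ, Finset.sum_range_succ,
      sum_even F L, Finset.sum_range_succ, add_assoc]

variable {f : SpatialEmbedding D} (S : Scale f)

/-- the pairing of the two-arc paths from `x a` to `x b` and from `x c` to `x d` -/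
noncomputable def qq (a b c d : I) : ℤ :=
  (T S (E.e a) (E.e c) + T S (E.e a) (E.g c d)) + (T S (E.g a b) (E.e c) + T S (E.g a b) (E.g c d))

theorem cy_e0 (l : List I) (hn : l.Nodup) (h : 2 ≤ l.length) (i : ℕ) :
    (cy E l hn h).e (2 * i) = E.e (cyc l (pos2 h) i) := by
  change (if (2 * i) % 2 = 0 then E.e (cyc l (pos2 h) ((2 * i) / 2)) else
    E.g (cyc l (pos2 h) ((2 * i) / 2)) (cyc l (pos2 h) ((2 * i) / 2 + 1))) = _
  have h1 : (2 * i) % 2 = 0 := by omega
  have h2 : (2 * i) / 2 = i := by omega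
  rw [if_pos h1, h2]

theorem cy_e1 (l : List I) (hn : l.Nodup) (h : 2 ≤ l.length) (i : ℕ) :
    (cy E l hn h).e (2 * i + 1) = E.g (cyc l (pos2 h) i) (cyc l (pos2 h) (i + 1)) := by
  change (if (2 * i + 1) % 2 = 0 then E.e (cyc l (pos2 h) ((2 * i + 1) / 2)) else
    E.g (cyc l (pos2 h) ((2 * i + 1) / 2)) (cyc l (pos2 h) ((2 * i + 1) / 2 + 1))) = _
  have h1 : ¬ (2 * i + 1) % 2 = 0 := by omega
  have h2 : (2 * i + 1) / 2 = i := by omega
  rw [if_neg h1, h2]

theorem cy_sum {l l' : List I} (hn : l.Nodup) (h : 2 ≤ l.length) (hn' : l'.Nodup)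
    (h' : 2 ≤ l'.length) :
    ∑ i ∈ Finset.range (cy E l hn h).k, ∑ j ∈ Finset.range (cy E l' hn' h').k,
      T S ((cy E l hn h).e i) ((cy E l' hn' h').e j) =
    ∑ i ∈ Finset.range l.length, ∑ j ∈ Finset.range l'.length,
      qq E S (cyc l (pos2 h) i) (cyc l (pos2 h) (i + 1)) (cyc l' (pos2 h') j)
        (cyc l' (pos2 h') (j + 1)) := by
  change ∑ i ∈ Finset.range (2 * l.length), ∑ j ∈ Finset.range (2 * l'.length),
      T S ((cy E l hn h).e i) ((cy E l' hn' h').e j) = _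
  rw [sum_even]
  apply Finset.sum_congr rfl
  intro i _
  rw [sum_even, sum_even, ← Finset.sum_add_distrib]
  apply Finset.sum_congr rfl
  intro j _
  simp only [cy_e0, cy_e1]
  rfl

/-- sampled points of the two-arc path -/
noncomputable def pt2 (a b : I) (i : ℕ) : R3 :=
  if i ≤ S.M then inscribed (f.arc (E.e a)) S.M i else inscribed (f.arc (E.g a b)) S.M (i - S.M)

theorem pt2_lt (a b : I) {i : ℕ} (hi : i ≤ S.M) :
    pt2 E S a b i = inscribed (f.arc (E.e a)) S.M i := by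
  unfold pt2; rw [if_pos hi]

theorem pt2_ge {a b : I} (hab : a ≠ b) (i : ℕ) :
    pt2 E S a b (S.M + i) = inscribed (f.arc (E.g a b)) S.M i := by
  unfold pt2
  by_cases h : i = 0
  · subst h
    rw [if_pos (by omega), add_zero, insc_last _ S.hM, insc_zero, E.tgt_e, E.src_g _ _ hab]
  · rw [if_neg (by omega)]
    congr 1
    omega

theorem pt2_edge {a b : I} (hab : a ≠ b) {i : ℕ} (hi : i < 2 * S.M) :
    ∃ e', (e' = E.e a ∨ e' = E.g a b) ∧ ∃ i' < S.M,
      pt2 E S a b i = inscribed (f.arc e') S.M i' ∧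
      pt2 E S a b (i + 1) = inscribed (f.arc e') S.M (i' + 1) := by
  rcases Nat.lt_or_ge i S.M with h | h
  · exact ⟨_, Or.inl rfl, i, h, pt2_lt E S a b h.le, pt2_lt E S a b h⟩
  · obtain ⟨i', rfl⟩ := Nat.exists_eq_add_of_le h
    refine ⟨_, Or.inr rfl, i', by omega, pt2_ge E S hab i', ?_⟩
    rw [add_assoc]
    exact pt2_ge E S hab (i' + 1)

theorem apart_of {a b c d : I} (hab : a ≠ b) (hcd : c ≠ d) (h1 : a ≠ c) (h2 : a ≠ d) (h3 : b ≠ c)
    (h4 : b ≠ d) {e' e'' : D.E} (he : e' = E.e a ∨ e' = E.g a b) (he' : e'' = E.e c ∨ e'' = E.g c d) :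
    Apart e' e'' := by
  unfold Apart
  rcases he with rfl | rfl <;> rcases he' with rfl | rfl
  · rw [E.src_e, E.tgt_e, E.src_e, E.tgt_e]
    exact ⟨E.x_inj.ne h1, E.x_ne_y _ _, (E.x_ne_y _ _).symm, E.y_inj.ne h1⟩
  · rw [E.src_e, E.tgt_e, E.src_g _ _ hcd, E.tgt_g _ _ hcd]
    exact ⟨E.x_ne_y _ _, E.x_inj.ne h2, E.y_inj.ne h1, (E.x_ne_y _ _).symm⟩
  · rw [E.src_g _ _ hab, E.tgt_g _ _ hab, E.src_e, E.tgt_e]
    exact ⟨(E.x_ne_y _ _).symm, E.y_inj.ne h1, E.x_inj.ne h3, E.x_ne_y _ _⟩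
  · rw [E.src_g _ _ hab, E.tgt_g _ _ hab, E.src_g _ _ hcd, E.tgt_g _ _ hcd]
    exact ⟨E.y_inj.ne h1, (E.x_ne_y _ _).symm, E.x_ne_y _ _, E.x_inj.ne h4⟩

theorem crossSum_pt2 {a b c d : I} (hab : a ≠ b) (hcd : c ≠ d) :
    crossSum S.v (2 * S.M) (pt2 E S a b) (2 * S.M) (pt2 E S c d) = qq E S a b c d := by
  have hsplit : ∀ (F : ℕ → ℤ), ∑ i ∈ Finset.range (2 * S.M), F i =
      ∑ i ∈ Finset.range S.M, F i + ∑ i ∈ Finset.range S.M, F (S.M + i) := by
    intro F
    rw [two_mul, Finset.sum_range_add]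
  unfold crossSum qq T crossSum
  rw [hsplit]
  refine congrArg₂ (· + ·) ?_ ?_
  · rw [← Finset.sum_add_distrib]
    apply Finset.sum_congr rfl
    intro i hi
    rw [Finset.mem_range] at hi
    rw [hsplit, pt2_lt E S a b hi.le, pt2_lt E S a b (show i + 1 ≤ S.M by omega)]
    congr 1
    · apply Finset.sum_congr rfl
      intro j hj
      rw [Finset.mem_range] at hj
      rw [pt2_lt E S c d hj.le, pt2_lt E S c d (show j + 1 ≤ S.M by omega)]
    · apply Finset.sum_congr rfl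
      intro j hj
      rw [pt2_ge E S hcd, add_assoc, pt2_ge E S hcd]
  · rw [← Finset.sum_add_distrib]
    apply Finset.sum_congr rfl
    intro i hi
    rw [Finset.mem_range] at hi
    rw [hsplit, pt2_ge E S hab, add_assoc, pt2_ge E S hab]
    congr 1
    · apply Finset.sum_congr rfl
      intro j hj
      rw [Finset.mem_range] at hj
      rw [pt2_lt E S c d hj.le, pt2_lt E S c d (show j + 1 ≤ S.M by omega)]
    · apply Finset.sum_congr rfl
      intro j hj
      rw [pt2_ge E S hcd, add_assoc, pt2_ge E S hcd]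

/-- the parity theorem of Conway, Gordon and Sachs -/
theorem k6' (l : Fin 6 → I) (hl : Function.Injective l) :
    ten (fun a b x y => ((qq E S (l a) (l b) (l x) (l y) : ℤ) : ZMod 2)) = 1 := by
  have hM := S.hM
  rw [← k6_poly (fun i => f.pos (E.x (l i))) (fun a b => pt2 E S (l a) (l b)) (2 * S.M) (by omega)
    (by
      intro a b hab
      rw [pt2_lt E S _ _ (Nat.zero_le _), insc_zero, E.src_e])
    (by
      intro a b hab
      rw [two_mul, pt2_ge E S (hl.ne hab.ne), insc_last _ hM, E.tgt_g _ _ (hl.ne hab.ne)])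
    S.v S.hv
    (by
      intro a b x y h1 h2 h3 h4 h5 h6 i hi j hj
      obtain ⟨e1, he1, i', hi', q1, q2⟩ := pt2_edge E S (hl.ne h1.ne) hi
      obtain ⟨e2, he2, j', hj', q3, q4⟩ := pt2_edge E S (hl.ne h2.ne) hj
      rw [q1, q2, q3, q4]
      exact S.reg _ _ (apart_of E (hl.ne h1.ne) (hl.ne h2.ne) (hl.ne h3) (hl.ne h4) (hl.ne h5)
        (hl.ne h6) he1 he2) i' hi' j' hj')
    (by
      intro a b x y h1 h2 h3 h4 h5 h6 i hi j hj
      obtain ⟨e1, he1, i', hi', q1, q2⟩ := pt2_edge E S (hl.ne h1.ne) hi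
      obtain ⟨e2, he2, j', hj', q3, q4⟩ := pt2_edge E S (hl.ne h2.ne) hj
      rw [q1, q2, q3, q4]
      exact S.dis _ _ (apart_of E (hl.ne h1.ne) (hl.ne h2.ne) (hl.ne h3) (hl.ne h4) (hl.ne h5)
        (hl.ne h6) he1 he2) i' hi' j' hj')]
  apply ten_congr
  intro a b x y h1 h2 _ _ _ _
  rw [crossSum_pt2 E S (hl.ne h1.ne) (hl.ne h2.ne)]

end

end Pool.Agent.H95.TL
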