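import Mathlib
import Pool.Agent.H95.TL.Dbl

/-!
# Digraphs with a doubled copy of the complete digraph on `42 s` vertices are `(s + 1)`-linked
-/

set_option autoImplicit false
set_option linter.unusedVariables false
set_option linter.unusedSectionVars false
set_option maxHeartbeats 1000000

namespace Pool.Agent.H95.TL

open Set Pool.Agent.N568.Dg Pool.Agent.Helper683.Lk Pool.Agent.N568.Lk

/-- the choice of six detours -/
theorem block_alg' {V : Type} {ψ : V → V → ZMod 2} {P : Fin 3 → V}
    (h : ψ (P 0) (P 1) + ψ (P 1) (P 2) + ψ (P 2) (P 0) ≠ 0 ∨ ψ (P 0) (P 2) + ψ (P 2) (P 0) ≠ 0) :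
    ∃ τ : Fin 6 → Fin 3 × Fin 3, ∀ (R : ZMod 2) (u y : V), ∃ d, R + ls ψ y (B u P (τ d)) ≠ 0 := by
  rcases h with h | h
  · refine ⟨![(0, 0), (1, 1), (2, 2), (0, 1), (1, 2), (2, 0)], ?_⟩
    intro R u y
    by_contra hcon
    push Not at hcon
    have h0 := hcon 0
    have h1 := hcon 1
    have h2 := hcon 2
    have h01 := hcon 3
    have h12 := hcon 4
    have h20 := hcon 5
    simp [B, ls] at h0 h1 h2 h01 h12 h20
    apply h
    linear_combination h01 + h12 + h20 - h0 - h1 - h2
  · refine ⟨![(0, 0), (0, 0), (2, 2), (0, 2), (0, 2), (2, 0)], ?_⟩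
    intro R u y
    by_contra hcon
    push Not at hcon
    have h0 := hcon 0
    have h2 := hcon 2
    have h02 := hcon 3
    have h20 := hcon 5
    simp [B, ls] at h0 h2 h02 h20
    apply h
    linear_combination h02 + h20 - h0 - h2

open Classical in
/-- averaging over the detours -/
theorem exists_choice' {m s : ℕ} (hs : 6 * s ≤ m) (F : Fin m → (Fin m → Fin 6) → ZMod 2)
    (hF : ∀ j c, ∃ d, F j (Function.update c j d) ≠ 0) :
    ∃ c, s ≤ (Finset.univ.filter fun j => F j c ≠ 0).card := by
  classical
  by_contra hcon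
  push Not at hcon
  have h1 : ∀ j : Fin m, Fintype.card (Fin m → Fin 6) ≤
      6 * (Finset.univ.filter fun c => F j c ≠ 0).card := by
    intro j
    choose d hd using hF j
    refine Finset.card_le_mul_card_image_of_maps_to (s := Finset.univ)
      (f := fun c => Function.update c j (d c)) (n := 6) ?_ ?_
    · intro c _
      simp only [Finset.mem_filter, Finset.mem_univ, true_and]
      exact hd c
    · intro b _
      refine le_trans (Finset.card_le_card_of_injOn (t := (Finset.univ : Finset (Fin 6)))
        (fun c => c j) (fun _ _ => Finset.mem_univ _) ?_) (by simp)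
      intro c hc c' hc' hcc
      simp only [Finset.coe_filter, Finset.mem_univ, true_and, Set.mem_ofPred_eq] at hc hc'
      funext i
      by_cases hi : i = j
      · subst hi; exact hcc
      · have e1 := congrFun hc i
        have e2 := congrFun hc' i
        rw [Function.update_of_ne hi] at e1 e2
        rw [e1, e2]
  have h2 : ∑ j : Fin m, (Finset.univ.filter fun c => F j c ≠ 0).card =
      ∑ c : Fin m → Fin 6, (Finset.univ.filter fun j => F j c ≠ 0).card := by
    simp only [Finset.card_filter]
    exact Finset.sum_comm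
  have h3 : m * Fintype.card (Fin m → Fin 6) ≤
      6 * ∑ j : Fin m, (Finset.univ.filter fun c => F j c ≠ 0).card := by
    rw [Finset.mul_sum]
    calc m * Fintype.card (Fin m → Fin 6)
        = ∑ _j : Fin m, Fintype.card (Fin m → Fin 6) := by simp
      _ ≤ _ := Finset.sum_le_sum fun j _ => h1 j
  have h4 : ∑ c : Fin m → Fin 6, (6 * (Finset.univ.filter fun j => F j c ≠ 0).card + 6) ≤
      ∑ c : Fin m → Fin 6, 6 * s := by
    apply Finset.sum_le_sum
    intro c _
    have := hcon c
    omega
  rw [Finset.sum_add_distrib, ← Finset.mul_sum, ← h2] at h4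
  simp only [Finset.sum_const, Finset.card_univ, smul_eq_mul] at h4
  have hpos : 0 < Fintype.card (Fin m → Fin 6) := Fintype.card_pos
  nlinarith

/-- the sum over a periodic list -/
theorem sum_cyc {I : Type} [Finite I] {A : Type*} [AddCommMonoid A] (ψ : I → I → A) {z : I}
    {l : List I} (hn : l.Nodup) (h : 2 ≤ l.length) (hz : l.head? = some z) :
    ∑ i ∈ Finset.range l.length, ψ (cyc l (pos2 h) i) (cyc l (pos2 h) (i + 1)) = ls ψ z l :=
  ofList_sum' ψ hn h hz

section
variable {D : DirectedGraph} {m : ℕ} (E : Doubled D (Fin m × Fin 7)) {f : SpatialEmbedding D}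
  (S : Scale f)

/-- the parity of the pairing of an edge with a closed list -/
noncomputable def La (z : Fin m × Fin 7) (l : List (Fin m × Fin 7)) (p q : Fin m × Fin 7) : ZMod 2 :=
  ls (fun u v => ((qq E S p q u v : ℤ) : ZMod 2)) z l

theorem block' (i : Fin m) : ∃ (A : Fin 3 → Fin 6) (r : Fin 6) (L : List (Fin 6)),
    Function.Injective A ∧ (r :: L).Nodup ∧ 2 ≤ (r :: L).length ∧ (r :: L).length ≤ 3 ∧
    (∀ j, A j ∉ r :: L) ∧
    (La E S (gi i r) ((r :: L).map (gi i)) (gi i (A 0)) (gi i (A 1)) +
      La E S (gi i r) ((r :: L).map (gi i)) (gi i (A 1)) (gi i (A 2)) +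
      La E S (gi i r) ((r :: L).map (gi i)) (gi i (A 2)) (gi i (A 0)) ≠ 0 ∨
     La E S (gi i r) ((r :: L).map (gi i)) (gi i (A 0)) (gi i (A 2)) +
      La E S (gi i r) ((r :: L).map (gi i)) (gi i (A 2)) (gi i (A 0)) ≠ 0) := by
  obtain ⟨a, b, c, x, y, z, hn, h9⟩ := exists_nine (k6' E S (gi i) (gi_inj i))
  have hd := directed h9
  simp only [List.nodup_cons, List.mem_cons, List.not_mem_nil, or_false, not_or, not_false_eq_true,
    List.nodup_nil, and_true] at hn
  obtain ⟨⟨ab, ac, ax, ay, az⟩, ⟨bc, bx, bY, bz⟩, ⟨cx, cy, cz⟩, ⟨xy, xz⟩, yz⟩ := hn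
  have hA : Function.Injective ![a, b, c] := by
    intro p q h
    fin_cases p <;> fin_cases q <;> simp at h ⊢ <;>
      first
      | exact ab h
      | exact ac h
      | exact bc h
      | exact ab h.symm
      | exact ac h.symm
      | exact bc h.symm
  rcases hd with h | h | h | h
  · refine ⟨![a, b, c], x, [y, z], hA, by simp [xy, xz, yz], by simp, by simp, ?_, Or.inl ?_⟩
    · intro j
      fin_cases j <;> simp [ax, ay, az, bx, bY, bz, cx, cy, cz]
    · intro h0
      apply h
      simp only [La, List.map_cons, List.map_nil, ls, Matrix.cons_val_zero, Matrix.cons_val_one,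
        Matrix.cons_val] at h0
      linear_combination h0
  · refine ⟨![a, b, c], x, [y, z], hA, by simp [xy, xz, yz], by simp, by simp, ?_, Or.inr ?_⟩
    · intro j
      fin_cases j <;> simp [ax, ay, az, bx, bY, bz, cx, cy, cz]
    · intro h0
      apply h
      simp only [La, List.map_cons, List.map_nil, ls, Matrix.cons_val_zero, Matrix.cons_val_one,
        Matrix.cons_val] at h0
      linear_combination h0
  · refine ⟨![a, b, c], x, [z], hA, by simp [xz], by simp, by simp, ?_, Or.inl ?_⟩
    · intro j
      fin_cases j <;> simp [ax, az, bx, bz, cx, cz]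
    · intro h0
      apply h
      simp only [La, List.map_cons, List.map_nil, ls, Matrix.cons_val_zero, Matrix.cons_val_one,
        Matrix.cons_val] at h0
      linear_combination h0
  · refine ⟨![a, b, c], x, [z], hA, by simp [xz], by simp, by simp, ?_, Or.inr ?_⟩
    · intro j
      fin_cases j <;> simp [ax, az, bx, bz, cx, cz]
    · intro h0
      apply h
      simp only [La, List.map_cons, List.map_nil, ls, Matrix.cons_val_zero, Matrix.cons_val_one,
        Matrix.cons_val] at h0
      linear_combination h0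

end

/-- A digraph with a doubled copy of the complete digraph on `Fin m × Fin 7` is intrinsically
`(s + 1)`-linked if `m ≥ 6 s` and `m > 0`. -/
theorem main' {D : DirectedGraph} {m s : ℕ} (E : Doubled D (Fin m × Fin 7)) (hs : 6 * s ≤ m)
    (hm : 0 < m) : StarLinked (s + 1) D := by
  intro f
  obtain ⟨S⟩ := exists_scale f
  choose A r L hA hn hlen hlen3 hAL hodd using block' E S
  have hτ : ∀ j : Fin m, ∃ τ : Fin 6 → Fin 3 × Fin 3, ∀ (R : ZMod 2) (u y : Fin m × Fin 7), ∃ d,
      R + ls (La E S (gi j (r j)) ((r j :: L j).map (gi j))) y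
        (B u (fun k => gi j (A j k)) (τ d)) ≠ 0 := fun j => block_alg' (hodd j)
  choose τ hτ using hτ
  let z : Fin m × Fin 7 := (⟨0, hm⟩, 6)
  let c' : (Fin m → Fin 6) → Fin m → Fin 3 × Fin 3 := fun c i => τ i (c i)
  have hc' : ∀ c j d, c' (Function.update c j d) = Function.update (c' c) j (τ j d) := by
    intro c j d
    funext i
    by_cases hi : i = j
    · subst hi
      simp [c']
    · simp [c', Function.update_of_ne hi]
  let F : Fin m → (Fin m → Fin 6) → ZMod 2 := fun j c =>
    ls (La E S (gi j (r j)) ((r j :: L j).map (gi j))) z (W A (c' c))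
  obtain ⟨c, hc⟩ := exists_choice' hs F (by
    intro j c
    obtain ⟨R, y, h⟩ := W_separate A (La E S (gi j (r j)) ((r j :: L j).map (gi j))) z j (c' c)
    obtain ⟨d, hd⟩ := hτ j R (j, 6) y
    refine ⟨d, ?_⟩
    simp only [F]
    rw [hc', h (τ j d)]
    exact hd)
  obtain ⟨t, ht, htc⟩ := Finset.exists_subset_card_eq hc
  let ι := t.orderEmbOfFin htc
  have hι : ∀ i, F (ι i) c ≠ 0 := by
    intro i
    have := ht (t.orderEmbOfFin_mem htc i)
    simpa using this
  have hhead : (W A (c' c)).head? = some z := by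
    obtain ⟨m', rfl⟩ : ∃ m', m = m' + 1 := ⟨m - 1, by omega⟩
    unfold W
    rw [List.finRange_succ]
    rfl
  have hWlen : 2 ≤ (W A (c' c)).length := by
    obtain ⟨m', rfl⟩ : ∃ m', m = m' + 1 := ⟨m - 1, by omega⟩
    unfold W
    rw [List.finRange_succ, List.flatMap_cons, List.length_append]
    unfold B
    simp only [List.length_cons]
    omega
  let C0 : OrientedCycle D := cy E (W A (c' c)) (W_nodup hA (c' c)) hWlen
  let CL : Fin m → OrientedCycle D := fun j =>
    cy E ((r j :: L j).map (gi j)) ((hn j).map (gi_inj j)) (by rw [List.length_map]; exact hlen j)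
  have d0 : ∀ j, VertexDisjoint C0 (CL j) := by
    intro j
    apply cy_disjoint
    intro a ha ha'
    obtain ⟨p, hp, rfl⟩ := List.mem_map.mp ha'
    rcases mem_W ha with h4 | ⟨k, h4⟩
    · exact gi_ne _ _ _ h4
    · have h5 : p = A j k := gi_inj j h4
      exact hAL j k (h5 ▸ hp)
  have dL : ∀ j k, j ≠ k → VertexDisjoint (CL j) (CL k) := by
    intro j k hjk
    apply cy_disjoint
    intro a ha ha'
    obtain ⟨p, _, rfl⟩ := List.mem_map.mp ha
    obtain ⟨q, _, h2⟩ := List.mem_map.mp ha'
    exact hjk (congrArg Prod.fst h2).symm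
  have hlk : ∀ i : Fin s, ∃ k : ℤ, k ≠ 0 ∧
      IsLinkingNumber (C0.curve f) ((CL (ι i)).curve f) k := by
    intro i
    refine ⟨_, ?_, isLk S (d0 (ι i))⟩
    intro h0
    apply hι i
    have h1 := congrArg (Int.cast : ℤ → ZMod 2) h0
    rw [cy_sum] at h1
    push_cast at h1
    rw [← h1]
    show ls (La E S (gi (ι i) (r (ι i))) ((r (ι i) :: L (ι i)).map (gi (ι i)))) z (W A (c' c)) = _
    rw [← sum_cyc _ (W_nodup hA (c' c)) hWlen hhead]
    apply Finset.sum_congr rfl
    intro a _
    show ls _ (gi (ι i) (r (ι i))) ((r (ι i) :: L (ι i)).map (gi (ι i))) = _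
    rw [← sum_cyc _ ((hn (ι i)).map (gi_inj (ι i)))
      (by rw [List.length_map]; exact hlen (ι i)) (by rfl)]
  have hk6 : ∀ j, (CL j).k ≤ 6 := by
    intro j
    change 2 * ((r j :: L j).map (gi j)).length ≤ 6
    rw [List.length_map]
    have := hlen3 j
    omega
  let C : Fin (s + 1) → OrientedCycle D := Fin.cons C0 (fun i => CL (ι i))
  refine ⟨C, 0, ?_, ?_, ?_⟩
  · intro i j
    refine Fin.cases ?_ (fun i => ?_) i <;> refine Fin.cases ?_ (fun j => ?_) j
    · intro h; exact absurd rfl h
    · intro _
      exact d0 _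
    · intro _ a ha b hb he
      exact d0 _ b hb a ha he.symm
    · intro h
      apply dL
      intro h'
      exact h (congrArg Fin.succ (ι.injective h'))
  · exact nonsplit_of hlk
  · intro i
    refine Fin.cases ?_ (fun i => ?_) i
    · intro h; exact absurd rfl h
    · intro _
      refine ⟨?_, hk6 _⟩
      have := nonsplit_of (s := 1) (C := ![C0, CL (ι i)]) (f := f) (by
        intro j
        fin_cases j
        exact hlk i)
      have e : (fun j => (![C0, CL (ι i)] j).image f) = ![(C 0).image f, (C i.succ).image f] := by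
        funext j
        fin_cases j <;> rfl
      rw [← e]
      exact this

end Pool.Agent.H95.TL
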