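import Mathlib
import Pool.Agent.H95.TL.Main

/-!
# Tournaments
-/

set_option autoImplicit false
set_option linter.unusedVariables false

namespace Pool.Agent.H95.TL

open Set Pool.Agent.N568.Dg

/-- the restriction of a doubled copy to a smaller index set -/
def Doubled.comap {D : DirectedGraph} {I J : Type} (E : Doubled D I) (φ : J → I)
    (hφ : Function.Injective φ) : Doubled D J where
  x j := E.x (φ j)
  y j := E.y (φ j)
  e j := E.e (φ j)
  g i j := E.g (φ i) (φ j)
  x_inj := E.x_inj.comp hφ
  y_inj := E.y_inj.comp hφ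
  x_ne_y i j := E.x_ne_y _ _
  src_e i := E.src_e _
  tgt_e i := E.tgt_e _
  src_g i j h := E.src_g _ _ (hφ.ne h)
  tgt_g i j h := E.tgt_g _ _ (hφ.ne h)

theorem main_fin {D : DirectedGraph} {n M : ℕ} (hn : 2 ≤ n) (hM : 42 * (n - 1) ≤ M)
    (E : Doubled D (Fin M)) : StarLinked n D := by
  obtain ⟨s, rfl⟩ : ∃ s, n = s + 1 := ⟨n - 1, by omega⟩
  have h1 : Fintype.card (Fin (6 * s) × Fin 7) ≤ Fintype.card (Fin M) := by
    simp only [Fintype.card_prod, Fintype.card_fin]
    omega
  obtain ⟨φ⟩ := Function.Embedding.nonempty_of_card_le h1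
  exact main' (E.comap φ φ.injective) le_rfl (by omega)

/-- an intrinsically `n`-linked tournament has at least `3 n` vertices -/
theorem three_mul_le {D : DirectedGraph} (hD : IsTournament D) {n : ℕ}
    (h : IntrinsicallyLinked n D) : 3 * n ≤ Nat.card D.V := by
  have := D.finite_V
  obtain ⟨f⟩ := exists_embedding D
  obtain ⟨C, hC, -⟩ := h f
  have h3 : ∀ i, 3 ≤ (C i).k := by
    intro i
    by_contra hlt
    push Not at hlt
    have hpos := (C i).k_pos
    have hk : (C i).k = 1 ∨ (C i).k = 2 := by omega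
    rcases hk with hk | hk
    · have h1 := (C i).src_e 0 (by omega)
      have h2 := (C i).tgt_e 0 (by omega)
      have h3 := (C i).closed
      rw [hk] at h3
      rw [zero_add, h3] at h2
      exact D.src_ne_tgt _ (h1.trans h2.symm)
    · have h1 := (C i).src_e 0 (by omega)
      have h2 := (C i).tgt_e 0 (by omega)
      have h3 := (C i).src_e 1 (by omega)
      have h4 := (C i).tgt_e 1 (by omega)
      have h5 := (C i).closed
      rw [hk] at h5
      rw [zero_add] at h2
      rw [show 1 + 1 = 2 from rfl, h5] at h4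
      have hne : (C i).x 0 ≠ (C i).x 1 := by
        intro he
        have := (C i).distinct 0 (by omega) 1 (by omega) he
        omega
      obtain ⟨e', -, hu⟩ := hD _ _ hne
      have q1 := hu ((C i).e 0) (Or.inl ⟨h1, h2⟩)
      have q2 := hu ((C i).e 1) (Or.inr ⟨h3, h4⟩)
      rw [← q2] at q1
      rw [q1] at h1
      exact hne (h1.symm.trans h3)
  have hinj : Function.Injective (fun p : Fin n × Fin 3 => (C p.1).x p.2) := by
    rintro ⟨i, a⟩ ⟨j, b⟩ hab
    have ha : (a : ℕ) < (C i).k := lt_of_lt_of_le a.2 (h3 i)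
    have hb : (b : ℕ) < (C j).k := lt_of_lt_of_le b.2 (h3 j)
    simp only at hab
    by_cases hij : i = j
    · subst hij
      have := (C i).distinct a ha b hb hab
      rw [Fin.ext this]
    · exact absurd hab (hC i j hij a ha b hb)
  have := Nat.card_le_card_of_injective _ hinj
  rw [Nat.card_prod, Nat.card_fin, Nat.card_fin] at this
  omega

/-- the direction of the arc between two numbers: from `2 i` to `2 i + 1`, from `2 i + 1` to `2 j` for
`i ≠ j`, and from the smaller to the larger one for two numbers of the same parity -/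
def Beats (a b : ℕ) : Prop :=
  if a % 2 = b % 2 then a < b else if a % 2 = 0 then a / 2 = b / 2 else a / 2 ≠ b / 2

/-- the tournament on `0, …, N - 1` -/
def tour (N : ℕ) : DirectedGraph where
  V := Fin N
  E := {p : Fin N × Fin N // Beats p.1 p.2}
  finite_V := inferInstance
  finite_E := inferInstance
  src e := e.1.1
  tgt e := e.1.2
  src_ne_tgt e h := by
    have := e.2
    rw [h] at this
    simp [Beats] at this

theorem beats_or {a b : ℕ} (h : a ≠ b) : (Beats a b ∧ ¬ Beats b a) ∨ (Beats b a ∧ ¬ Beats a b) := by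
  unfold Beats
  split_ifs <;> omega

theorem tour_isTournament (N : ℕ) : IsTournament (tour N) := by
  intro a b hab
  change Fin N at a
  change Fin N at b
  have hab' : (a : ℕ) ≠ b := fun h => hab (Fin.ext h)
  rcases beats_or hab' with ⟨h1, h2⟩ | ⟨h1, h2⟩
  · refine ⟨⟨(a, b), h1⟩, Or.inl ⟨rfl, rfl⟩, ?_⟩
    rintro ⟨⟨c, d⟩, hcd⟩ (⟨h3, h4⟩ | ⟨h3, h4⟩)
    · change c = a at h3
      change d = b at h4
      subst h3 h4
      rfl
    · change c = b at h3
      change d = a at h4
      subst h3 h4
      exact absurd hcd h2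
  · refine ⟨⟨(b, a), h1⟩, Or.inr ⟨rfl, rfl⟩, ?_⟩
    rintro ⟨⟨c, d⟩, hcd⟩ (⟨h3, h4⟩ | ⟨h3, h4⟩)
    · change c = a at h3
      change d = b at h4
      subst h3 h4
      exact absurd hcd h2
    · change c = b at h3
      change d = a at h4
      subst h3 h4
      rfl

/-- the doubled copy in the tournament -/
def tourDoubled {M N : ℕ} (h : 2 * M ≤ N) : Doubled (tour N) (Fin M) where
  x i := (⟨2 * i, by omega⟩ : Fin N)
  y i := (⟨2 * i + 1, by omega⟩ : Fin N)
  e i := ⟨((⟨2 * i, by omega⟩ : Fin N), (⟨2 * i + 1, by omega⟩ : Fin N)), by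
    simp only [Beats]; split_ifs <;> omega⟩
  g i j := if hij : i = j then ⟨((⟨2 * i, by omega⟩ : Fin N), (⟨2 * i + 1, by omega⟩ : Fin N)), by
      simp only [Beats]; split_ifs <;> omega⟩ else
    ⟨((⟨2 * i + 1, by omega⟩ : Fin N), (⟨2 * j, by omega⟩ : Fin N)), by
      have : (i : ℕ) ≠ j := fun h => hij (Fin.ext h)
      simp only [Beats]; split_ifs <;> omega⟩
  x_inj i j h := by
    have := congrArg Fin.val h
    simp only at this
    exact Fin.ext (by omega)
  y_inj i j h := by
    have := congrArg Fin.val h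
    simp only at this
    exact Fin.ext (by omega)
  x_ne_y i j h := by
    have := congrArg Fin.val h
    simp only at this
    omega
  src_e i := rfl
  tgt_e i := rfl
  src_g i j h := by
    rw [dif_neg h]
    rfl
  tgt_g i j h := by
    rw [dif_neg h]
    rfl

end Pool.Agent.H95.TL
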