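import Mathlib
import Pool.Agent.H95.TL.Tour
import Pool.Agent.H95.TL.Count

/-!
# Almost all tournaments are intrinsically `n`-linked
-/

set_option autoImplicit false
set_option linter.unusedVariables false

namespace Pool.Agent.H95.TL

open Set Pool.Agent.N568.Dg Filter Topology

theorem dir_or {N : ℕ} (o : Lab N) {a b : Fin N} (h : a ≠ b) :
    (Dir o a b ∧ ¬ Dir o b a) ∨ (Dir o b a ∧ ¬ Dir o a b) := by
  rcases lt_or_gt_of_ne h with hab | hab
  · cases hv : o ⟨(a, b), hab⟩
    · right
      refine ⟨Or.inr ⟨hab, hv⟩, ?_⟩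
      rintro (⟨_, h2⟩ | ⟨h1, _⟩)
      · rw [hv] at h2; exact absurd h2 (by decide)
      · exact absurd hab h1.not_gt
    · left
      refine ⟨Or.inl ⟨hab, hv⟩, ?_⟩
      rintro (⟨h1, _⟩ | ⟨_, h2⟩)
      · exact absurd hab h1.not_gt
      · rw [hv] at h2; exact absurd h2 (by decide)
  · cases hv : o ⟨(b, a), hab⟩
    · left
      refine ⟨Or.inr ⟨hab, hv⟩, ?_⟩
      rintro (⟨_, h2⟩ | ⟨h1, _⟩)
      · rw [hv] at h2; exact absurd h2 (by decide)
      · exact absurd hab h1.not_gt
    · right
      refine ⟨Or.inl ⟨hab, hv⟩, ?_⟩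
      rintro (⟨h1, _⟩ | ⟨_, h2⟩)
      · exact absurd hab h1.not_gt
      · rw [hv] at h2; exact absurd h2 (by decide)

theorem labTour_isTournament {N : ℕ} (o : Lab N) : IsTournament (labTour o) := by
  intro a b hab
  change Fin N at a
  change Fin N at b
  rcases dir_or o hab with ⟨h1, h2⟩ | ⟨h1, h2⟩
  · refine ⟨⟨(a, b), h1⟩, Or.inl ⟨rfl, rfl⟩, ?_⟩
    rintro ⟨⟨c, d⟩, hcd⟩ (⟨h3, h4⟩ | ⟨h3, h4⟩)
    · change c = a at h3
      change d = b at h4
      subst h3 h4
      rfl
    · change c = b at h3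
      change d = a at h4
      subst h3 h4
      exact absurd hcd h2
  · refine ⟨⟨(b, a), h1⟩, Or.inr ⟨rfl, rfl⟩, ?_⟩
    rintro ⟨⟨c, d⟩, hcd⟩ (⟨h3, h4⟩ | ⟨h3, h4⟩)
    · change c = a at h3
      change d = b at h4
      subst h3 h4
      exact absurd hcd h2
    · change c = b at h3
      change d = a at h4
      subst h3 h4
      rfl

open Classical in
/-- the pattern -/
noncomputable def pat (N : ℕ) : {p : Fin N × Fin N // p.1 < p.2} → Bool :=
  fun p => decide (Beats p.1.1 p.1.2)

/-- the pairs in the `k`-th block of length `h` -/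
def blk (N h k : ℕ) : Finset {p : Fin N × Fin N // p.1 < p.2} :=
  Finset.univ.filter fun p => (p.1.1 : ℕ) / h = k ∧ (p.1.2 : ℕ) / h = k

theorem blk_card (N h k : ℕ) (hh : 0 < h) : (blk N h k).card ≤ h ^ 2 := by
  have : (blk N h k).card ≤ (Finset.univ : Finset (Fin h × Fin h)).card := by
    refine Finset.card_le_card_of_injOn
      (fun p => (⟨(p.1.1 : ℕ) % h, Nat.mod_lt _ hh⟩, ⟨(p.1.2 : ℕ) % h, Nat.mod_lt _ hh⟩))
      (fun _ _ => Finset.mem_univ _) ?_
    intro p hp p' hp' hpp
    simp only [blk, Finset.coe_filter, Finset.mem_univ, true_and, Set.mem_ofPred_eq] at hp hp'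
    simp only [Prod.mk.injEq, Fin.mk.injEq] at hpp
    apply Subtype.ext
    apply Prod.ext
    · apply Fin.ext
      rw [← Nat.div_add_mod (p.1.1 : ℕ) h, ← Nat.div_add_mod (p'.1.1 : ℕ) h, hp.1, hp'.1, hpp.1]
    · apply Fin.ext
      rw [← Nat.div_add_mod (p.1.2 : ℕ) h, ← Nat.div_add_mod (p'.1.2 : ℕ) h, hp.2, hp'.2, hpp.2]
  rw [Finset.card_univ, Fintype.card_prod, Fintype.card_fin] at this
  rw [sq]
  exact this

theorem blk_disjoint (N h : ℕ) {j k : ℕ} (hjk : j ≠ k) : Disjoint (blk N h j) (blk N h k) := by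
  rw [Finset.disjoint_left]
  intro p hp hp'
  simp only [blk, Finset.mem_filter, Finset.mem_univ, true_and] at hp hp'
  exact hjk (hp.1.symm.trans hp'.1)

/-- the arcs inside a block with the right pattern -/
theorem dir_of_blk {N M k : ℕ} (hM : 0 < M) {o : Lab N}
    (ho : ∀ x ∈ blk N (2 * M) k, o x = pat N x) {a b : Fin N} (ha : (a : ℕ) / (2 * M) = k)
    (hb : (b : ℕ) / (2 * M) = k) (hab : Beats a b) : Dir o a b := by
  have hne : (a : ℕ) ≠ b := by
    intro h
    rw [h] at hab
    simp [Beats] at hab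
  rcases lt_or_gt_of_ne hne with h | h
  · left
    refine ⟨h, ?_⟩
    rw [ho ⟨(a, b), h⟩ (by simp only [blk, Finset.mem_filter, Finset.mem_univ, true_and]; exact ⟨ha, hb⟩)]
    simp only [pat, decide_eq_true_eq]
    exact hab
  · right
    refine ⟨h, ?_⟩
    rw [ho ⟨(b, a), h⟩ (by simp only [blk, Finset.mem_filter, Finset.mem_univ, true_and]; exact ⟨hb, ha⟩)]
    simp only [pat, decide_eq_false_iff_not]
    rcases beats_or hne with h' | h'
    · exact h'.2
    · exact absurd hab h'.2

theorem blk_bound {N M k : ℕ} (hk : k < N / (2 * M)) {t : ℕ} (ht : t < 2 * M) :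
    2 * M * k + t < N ∧ (2 * M * k + t) / (2 * M) = k := by
  have hM : 0 < 2 * M := by omega
  refine ⟨?_, ?_⟩
  · have h1 : (k + 1) * (2 * M) ≤ N := (Nat.le_div_iff_mul_le hM).1 hk
    have h2 : (k + 1) * (2 * M) = 2 * M * k + 2 * M := by ring
    omega
  · rw [Nat.mul_add_div hM, Nat.div_eq_of_lt ht, add_zero]

theorem beats_block {M k a b : ℕ} (h : Beats a b) : Beats (2 * M * k + a) (2 * M * k + b) := by
  have e : 2 * M * k = 2 * (M * k) := by ring
  rw [e]
  generalize M * k = c
  unfold Beats at h ⊢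
  split_ifs at h ⊢ <;> omega

/-- the doubled copy inside a block with the right pattern -/
noncomputable def blkDoubled {N M k : ℕ} (hk : k < N / (2 * M)) {o : Lab N}
    (ho : ∀ x ∈ blk N (2 * M) k, o x = pat N x) : Doubled (labTour o) (Fin M) where
  x i := (⟨2 * M * k + 2 * i, (blk_bound hk (by omega)).1⟩ : Fin N)
  y i := (⟨2 * M * k + (2 * i + 1), (blk_bound hk (by omega)).1⟩ : Fin N)
  e i := ⟨((⟨2 * M * k + 2 * i, (blk_bound hk (by omega)).1⟩ : Fin N),
      (⟨2 * M * k + (2 * i + 1), (blk_bound hk (by omega)).1⟩ : Fin N)),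
    dir_of_blk (by have := i.2; omega) ho (blk_bound hk (by omega)).2 (blk_bound hk (by omega)).2
      (beats_block (by simp only [Beats]; split_ifs <;> omega))⟩
  g i j := if hij : i = j then
      ⟨((⟨2 * M * k + 2 * i, (blk_bound hk (by omega)).1⟩ : Fin N),
        (⟨2 * M * k + (2 * i + 1), (blk_bound hk (by omega)).1⟩ : Fin N)),
      dir_of_blk (by have := i.2; omega) ho (blk_bound hk (by omega)).2 (blk_bound hk (by omega)).2
        (beats_block (by simp only [Beats]; split_ifs <;> omega))⟩ else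
    ⟨((⟨2 * M * k + (2 * i + 1), (blk_bound hk (by omega)).1⟩ : Fin N),
        (⟨2 * M * k + 2 * j, (blk_bound hk (by omega)).1⟩ : Fin N)),
      dir_of_blk (by have := i.2; omega) ho (blk_bound hk (by omega)).2 (blk_bound hk (by omega)).2
        (beats_block (by
          have : (i : ℕ) ≠ j := fun h => hij (Fin.ext h)
          simp only [Beats]; split_ifs <;> omega))⟩
  x_inj i j h := by
    have := congrArg Fin.val h
    simp only at this
    exact Fin.ext (by omega)
  y_inj i j h := by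
    have := congrArg Fin.val h
    simp only at this
    exact Fin.ext (by omega)
  x_ne_y i j h := by
    have := congrArg Fin.val h
    simp only at this
    omega
  src_e i := rfl
  tgt_e i := rfl
  src_g i j h := by
    rw [dif_neg h]
    rfl
  tgt_g i j h := by
    rw [dif_neg h]
    rfl

open Classical in
/-- the exceptional labelled tournaments -/
theorem few_exceptions {n : ℕ} (hn : 2 ≤ n) (N : ℕ) :
    (Nat.card {o : Lab N // ¬ StarLinked n (labTour o)} : ℝ) ≤
      (1 - 1 / 2 ^ ((84 * (n - 1)) ^ 2)) ^ (N / (84 * (n - 1))) * Nat.card (Lab N) := by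
  classical
  have h84 : 84 * (n - 1) = 2 * (42 * (n - 1)) := by ring
  set M := 42 * (n - 1) with hM
  have hM0 : 0 < M := by omega
  rw [h84]
  have h1 := bad_card (X := {p : Fin N × Fin N // p.1 < p.2}) (blk N (2 * M)) (pat N)
    ((2 * M) ^ 2) (N / (2 * M)) (fun k _ => blk_card N _ k (by omega))
    (fun j _ k _ h => blk_disjoint N _ h)
  have h2 : (Nat.card (Lab N) : ℝ) = 2 ^ Fintype.card {p : Fin N × Fin N // p.1 < p.2} := by
    rw [Nat.card_eq_fintype_card, Fintype.card_fun, Fintype.card_bool]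
    push_cast
    rfl
  rw [h2]
  refine le_trans ?_ h1
  rw [Nat.card_eq_fintype_card, Fintype.card_subtype]
  norm_cast
  apply Finset.card_le_card
  intro o ho
  simp only [Finset.mem_filter, Finset.mem_univ, true_and, bad] at ho ⊢
  intro k hk
  by_contra hcon
  push Not at hcon
  exact ho (main_fin hn le_rfl (blkDoubled hk hcon))

open Classical in
/-- almost all labelled tournaments are intrinsically `n`-linked -/
theorem almost_all {n : ℕ} (hn : 2 ≤ n) :
    Tendsto (fun N : ℕ => (Nat.card {o : Lab N // StarLinked n (labTour o)} : ℝ) / Nat.card (Lab N))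
      atTop (𝓝 1) := by
  classical
  set c : ℝ := 1 - 1 / 2 ^ ((84 * (n - 1)) ^ 2) with hc
  have hc0 : 0 ≤ c := by
    rw [hc, sub_nonneg, div_le_one (by positivity)]
    exact one_le_pow₀ (by norm_num)
  have hc1 : c < 1 := by
    rw [hc]
    have : (0 : ℝ) < 1 / 2 ^ ((84 * (n - 1)) ^ 2) := by positivity
    linarith
  have hpos : ∀ N : ℕ, (0 : ℝ) < Nat.card (Lab N) := by
    intro N
    exact_mod_cast Nat.card_pos
  have hsum : ∀ N : ℕ, (Nat.card {o : Lab N // StarLinked n (labTour o)} : ℝ) / Nat.card (Lab N) =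
      1 - (Nat.card {o : Lab N // ¬ StarLinked n (labTour o)} : ℝ) / Nat.card (Lab N) := by
    intro N
    rw [eq_sub_iff_add_eq, ← add_div, div_eq_one_iff_eq (hpos N).ne']
    have h1 := Fintype.card_subtype_compl (fun o : Lab N => StarLinked n (labTour o))
    have h2 := Fintype.card_subtype_le (fun o : Lab N => StarLinked n (labTour o))
    rw [Nat.card_eq_fintype_card, Nat.card_eq_fintype_card, Nat.card_eq_fintype_card]
    norm_cast
    omega
  simp only [hsum]
  have hlim : Tendsto (fun N : ℕ =>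
      (Nat.card {o : Lab N // ¬ StarLinked n (labTour o)} : ℝ) / Nat.card (Lab N)) atTop (𝓝 0) := by
    have h1 : Tendsto (fun N : ℕ => c ^ (N / (84 * (n - 1)))) atTop (𝓝 0) :=
      (tendsto_pow_atTop_nhds_zero_of_lt_one hc0 hc1).comp
        (Nat.tendsto_div_const_atTop (by omega))
    refine squeeze_zero (fun N => by positivity) (fun N => ?_) h1
    rw [div_le_iff₀ (hpos N)]
    exact few_exceptions hn N
  have := hlim.const_sub 1
  rwa [sub_zero] at this

end Pool.Agent.H95.TL
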